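import Pool.Agent.H55.OrbB

namespace Pool.Agent.Results.MP_80df55_gt.No
open Pool.Agent.H55.Orb

theorem result (x : OmegaStar) (f : OmegaStar ≃ₜ OmegaStar) :
    (f : C(OmegaStar, OmegaStar)) ∉ orbit (ContinuousMap.const OmegaStar x) :=
  sep x f

end Pool.Agent.Results.MP_80df55_gt.No
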